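import Pool.Agent.E8helper19.PM.Stm

/-!
# Project PM (MP_a3c92e_an), piece PM12: the energy of a needle sequence is unbounded in cones
-/

set_option autoImplicit false
open MeasureTheory Filter Topology Set
open scoped ContDiff ENNReal Real InnerProductSpace NNReal

namespace Pool.Agent.E8helper85.PM

open Pool.Agent.E8helper19.PM

lemma gr_continuousOn {f : E → ℂ} {U : Set E} (hU : IsOpen U) (hf : ContDiffOn ℝ ∞ f U) :
    ContinuousOn (gr f) U := by
  have h1 : ContinuousOn (fderiv ℝ f) U := hf.continuousOn_fderiv_of_isOpen hU (by simp)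
  have h2 : ContinuousOn (fun y => fun j : Fin 3 => pd j f y) U :=
    continuousOn_pi.2 fun j => h1.clm_apply continuousOn_const
  exact (PiLp.continuous_toLp 2 _).comp_continuousOn h2

lemma dens_continuousOn {f : E → ℂ} {U : Set E} (hU : IsOpen U) (hf : ContDiffOn ℝ ∞ f U) :
    ContinuousOn (fun y => ‖f y‖ ^ 2 + ‖gr f y‖ ^ 2) U :=
  (hf.continuousOn.norm.pow 2).add ((gr_continuousOn hU hf).norm.pow 2)

lemma gr_sub {f g : E → ℂ} {y : E} (hf : DifferentiableAt ℝ f y) (hg : DifferentiableAt ℝ g y) :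
    gr (fun z => f z - g z) y = gr f y - gr g y := by
  unfold gr pd
  ext j
  have h : fderiv ℝ (fun z => f z - g z) y = fderiv ℝ f y - fderiv ℝ g y := fderiv_fun_sub hf hg
  simp [h]

lemma gr_comp_sub (G : E → ℂ) (x y : E) : gr (fun z => G (z - x)) y = gr G (y - x) := by
  unfold gr pd
  ext j
  simp [fderiv_comp_sub]

lemma cone_open (z a : E) (r α : ℝ) : IsOpen (Cone z a r α) := by
  unfold Cone
  refine IsOpen.and ?_ ?_
  · exact isOpen_lt (by fun_prop) (by fun_prop)
  · exact isOpen_lt (by fun_prop) (by fun_prop)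

lemma cone_bdd (z a : E) (r α : ℝ) : Bornology.IsBounded (Cone z a r α) :=
  Metric.isBounded_ball.subset (t := Metric.ball z r) fun y hy => by
    rw [Metric.mem_ball, dist_eq_norm]
    exact hy.1

theorem t_FAT (hN : S_NULL) : S_FAT := by
  intro k Ω G x σ v a r α C hΩ hG hσ hv ha hr hα hα1 hCΩ hC
  obtain ⟨hSc, hS0⟩ := hN.2 Ω x σ hσ
  set P := Cone x a r α with hP
  have hPo : IsOpen P := cone_open _ _ _ _
  set S := σ '' Icc 0 1 with hS
  have hxS : x ∈ S := ⟨1, ⟨zero_le_one, le_rfl⟩, hσ.fin⟩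
  have hW : IsOpen (P \ S) := hPo.sdiff hSc.isClosed
  set g : E → ℂ := fun z => G (z - x) with hg
  have hgs : ContDiffOn ℝ ∞ g {x}ᶜ :=
    hG.smooth.comp (contDiff_id.sub contDiff_const).contDiffOn fun y hy => by
      simp only [id, mem_compl_iff, mem_singleton_iff, sub_eq_zero]
      exact hy
  have hxo : IsOpen ({x}ᶜ : Set E) := isOpen_compl_singleton
  have hWx : P \ S ⊆ {x}ᶜ := fun y hy h => hy.2 (by rw [mem_singleton_iff.1 h]; exact hxS)
  -- the bound on compact sets
  have key : ∀ K, IsCompact K → K ⊆ P \ S → ∫ y in K, ‖gr g y‖ ^ 2 ≤ 2 * C := by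
    intro K hK hKW
    have hKΩ : K ⊆ Ω \ S := fun y hy => ⟨hCΩ (hKW hy).1, (hKW hy).2⟩
    have hlim := hv.conv K hK hKΩ
    have hb : ∀ n, ∫ y in K, ‖gr g y‖ ^ 2 ≤ 2 * H1 K (fun y => v n y - G (y - x)) + 2 * C := by
      intro n
      have hvs := (hv.sol n).smooth
      have hsub : ContDiffOn ℝ ∞ (fun y => v n y - G (y - x)) (P \ S) :=
        (hvs.mono fun y hy => hCΩ hy.1).sub (hgs.mono hWx)
      have i1 : IntegrableOn (fun y => ‖v n y - G (y - x)‖ ^ 2 +
          ‖gr (fun y => v n y - G (y - x)) y‖ ^ 2) K :=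
        ((dens_continuousOn hW hsub).mono hKW).integrableOn_compact hK
      have i2 : IntegrableOn (fun y => ‖v n y‖ ^ 2 + ‖gr (v n) y‖ ^ 2) K :=
        ((dens_continuousOn hΩ hvs).mono fun y hy => (hKΩ hy).1).integrableOn_compact hK
      have i3 : IntegrableOn (fun y => ‖gr g y‖ ^ 2) K :=
        (((gr_continuousOn hxo hgs).norm.pow 2).mono (hKW.trans hWx)).integrableOn_compact hK
      have e1 : ∫ y in K, ‖gr g y‖ ^ 2 ≤ ∫ y in K, (2 * (‖v n y - G (y - x)‖ ^ 2 +
          ‖gr (fun y => v n y - G (y - x)) y‖ ^ 2) + 2 * (‖v n y‖ ^ 2 + ‖gr (v n) y‖ ^ 2)) := by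
        refine setIntegral_mono_on i3 ((i1.const_mul 2).add (i2.const_mul 2)) hK.measurableSet ?_
        intro y hy
        have hyΩ : y ∈ Ω := (hKΩ hy).1
        have d1 : DifferentiableAt ℝ (v n) y :=
          (hvs.contDiffAt (hΩ.mem_nhds hyΩ)).differentiableAt (by simp)
        have d2 : DifferentiableAt ℝ g y :=
          (hgs.contDiffAt (hxo.mem_nhds (hWx (hKW hy)))).differentiableAt (by simp)
        have e2 : gr (fun y => v n y - G (y - x)) y = gr (v n) y - gr g y := gr_sub d1 d2
        rw [e2]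
        have e3 : ‖gr g y‖ ≤ ‖gr (v n) y - gr g y‖ + ‖gr (v n) y‖ := by
          have := norm_sub_le (gr (v n) y) (gr (v n) y - gr g y)
          rw [sub_sub_cancel] at this
          linarith
        have e4 : ‖gr g y‖ ^ 2 ≤ (‖gr (v n) y - gr g y‖ + ‖gr (v n) y‖) ^ 2 :=
          pow_le_pow_left₀ (norm_nonneg _) e3 2
        nlinarith [sq_nonneg (‖gr (v n) y - gr g y‖ - ‖gr (v n) y‖),
          sq_nonneg ‖v n y - G (y - x)‖, sq_nonneg ‖v n y‖]
      have e5 : ∫ y in K, (2 * (‖v n y - G (y - x)‖ ^ 2 +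
          ‖gr (fun y => v n y - G (y - x)) y‖ ^ 2) + 2 * (‖v n y‖ ^ 2 + ‖gr (v n) y‖ ^ 2)) =
          2 * H1 K (fun y => v n y - G (y - x)) +
            2 * ∫ y in K, (‖v n y‖ ^ 2 + ‖gr (v n) y‖ ^ 2) := by
        rw [integral_add (i1.const_mul 2) (i2.const_mul 2), integral_const_mul, integral_const_mul]
        rfl
      have e6 : ∫ y in K, (‖v n y‖ ^ 2 + ‖gr (v n) y‖ ^ 2) ≤ C := by
        refine le_trans ?_ (hC n)
        refine setIntegral_mono_set ((hv.sol n).fin.mono_set hCΩ) ?_ ?_
        · exact Eventually.of_forall fun y => by positivity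
        · exact (hKW.trans diff_subset).eventuallyLE
      linarith
    have hlim2 : Tendsto (fun n => 2 * H1 K (fun y => v n y - G (y - x)) + 2 * C) atTop
        (𝓝 (2 * 0 + 2 * C)) := (hlim.const_mul 2).add_const _
    have := ge_of_tendsto' hlim2 hb
    linarith
  -- exhaustion
  obtain ⟨F, hF1, hF2, hF3, hF4⟩ := hW.exists_iUnion_isClosed
  have hFc : ∀ n, IsCompact (F n) := fun n =>
    Metric.isCompact_of_isClosed_isBounded (hF1 n)
      ((cone_bdd x a r α).subset ((hF2 n).trans diff_subset))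
  have hcov : AECover (volume.restrict (P \ S)) atTop F := by
    refine ⟨?_, fun n => (hF1 n).measurableSet⟩
    filter_upwards [ae_restrict_mem hW.measurableSet] with y hy
    rw [← hF3] at hy
    obtain ⟨n, hn⟩ := mem_iUnion.1 hy
    filter_upwards [eventually_ge_atTop n] with m hm
    exact hF4 hm hn
  have hres : ∀ n, (volume.restrict (P \ S)).restrict (F n) = volume.restrict (F n) := by
    intro n
    rw [Measure.restrict_restrict (hF1 n).measurableSet, inter_eq_left.2 (hF2 n)]
  have hint : IntegrableOn (fun y => ‖gr g y‖ ^ 2) (P \ S) := by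
    refine hcov.integrable_of_integral_bounded_of_nonneg_ae (2 * C) ?_ ?_ ?_
    · intro n
      unfold IntegrableOn
      rw [hres n]
      exact (((gr_continuousOn hxo hgs).norm.pow 2).mono
        ((hF2 n).trans hWx)).integrableOn_compact (hFc n)
    · exact Eventually.of_forall fun y => by positivity
    · refine Eventually.of_forall fun n => ?_
      rw [hres n]
      exact key (F n) (hFc n) (hF2 n)
  have hint2 : IntegrableOn (fun y => ‖gr g y‖ ^ 2) P :=
    hint.congr_set_ae (diff_null_ae_eq_self hS0).symm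
  -- translation
  refine hG.cone a r α ha hr hα hα1 ?_
  have hmp := measurePreserving_sub_right (volume : Measure E) x
  have hme : MeasurableEmbedding (fun y : E => y - x) := (MeasurableEquiv.subRight x).measurableEmbedding
  rw [← hmp.integrableOn_comp_preimage hme]
  have e7 : (fun y : E => y - x) ⁻¹' Cone 0 a r α = P := by
    ext y
    simp [Cone, hP]
  rw [e7]
  refine hint2.congr_fun (fun y _ => ?_) hPo.measurableSet
  simp only [Function.comp]
  rw [hg, gr_comp_sub]

end Pool.Agent.E8helper85.PM
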