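import Pool.Agent.E8helper19.PM.Stm

/-!
# Project PM (MP_a3c92e_an), piece PM3: null sets
-/

set_option autoImplicit false
open MeasureTheory Filter Topology Set
open scoped ContDiff ENNReal Real InnerProductSpace NNReal

namespace Pool.Agent.E8helper85.PM

open Pool.Agent.E8helper19.PM

/-- the zero set of a smooth function with nonvanishing derivative there is a null set -/
lemma level_null {ρ : E → ℝ} (hρ : ContDiff ℝ ∞ ρ) (h : ∀ y, ρ y = 0 → fderiv ℝ ρ y ≠ 0) :
    volume {y | ρ y = 0} = 0 := by
  obtain ⟨e, he⟩ : ∃ e : E, e ≠ 0 := exists_ne 0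
  have hm : MeasurableSet {y | ρ y = 0} :=
    (isClosed_singleton.preimage hρ.continuous).measurableSet
  have h1 : ApproximatesLinearOn (fun y => ρ y • e) (0 : E →L[ℝ] E) {y | ρ y = 0} (0 : ℝ≥0) := by
    intro x hx y hy
    have hx' : ρ x = 0 := hx
    have hy' : ρ y = 0 := hy
    simp [hx', hy']
  have h2 := h1.norm_fderiv_sub_le volume hm (fun y => (fderiv ℝ ρ y).smulRight e)
    (fun x _ => by
      have h3 : HasFDerivAt ρ (fderiv ℝ ρ x) x :=
        ((hρ.differentiable (by simp)) x).hasFDerivAt
      exact (h3.smul_const e).hasFDerivWithinAt)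
  have h4 : ∀ᵐ x ∂(volume.restrict {y : E | ρ y = 0}), False := by
    filter_upwards [h2, ae_restrict_mem hm] with x hx hx0
    rw [sub_zero] at hx
    have h5 : (fderiv ℝ ρ x).smulRight e = 0 := by
      rw [← nnnorm_eq_zero]
      exact le_antisymm hx zero_le
    refine h x hx0 ?_
    ext v
    have h6 := DFunLike.congr_fun h5 v
    simp only [ContinuousLinearMap.smulRight_apply, ContinuousLinearMap.zero_apply,
      smul_eq_zero] at h6
    rcases h6 with h6 | h6
    · simpa using h6
    · exact absurd h6 he
  rw [← Measure.restrict_eq_zero]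
  rwa [← ae_eq_bot, ← eventually_false_iff_eq_bot]

/-- affine lines are null sets -/
lemma line_null (p q : E) : volume (range fun s : ℝ => p + s • q) = 0 := by
  refine measure_mono_null ?_
    (Measure.addHaar_affineSubspace volume (AffineSubspace.mk' p (Submodule.span ℝ {q})) ?_)
  · rintro _ ⟨s, rfl⟩
    show p + s • q ∈ AffineSubspace.mk' p (Submodule.span ℝ {q})
    rw [AffineSubspace.mem_mk']
    rw [vsub_eq_sub, add_sub_cancel_left]
    exact Submodule.smul_mem _ _ (Submodule.mem_span_singleton_self q)
  · intro h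
    have h1 : Submodule.span ℝ {q} = ⊤ := by
      rw [← AffineSubspace.direction_mk' p (Submodule.span ℝ {q}), h,
        AffineSubspace.direction_top]
    have h2 : Module.finrank ℝ (Submodule.span ℝ ({q} : Set E)) ≤ 1 := by
      simpa using finrank_span_le_card (R := ℝ) ({q} : Set E)
    rw [h1, finrank_top] at h2
    simp at h2

theorem t_NULL : S_NULL := by
  refine ⟨?_, ?_⟩
  · rintro D ⟨ρ, hρ, rfl, h⟩
    refine measure_mono_null ?_ (level_null hρ h)
    exact frontier_lt_subset_eq hρ.continuous continuous_const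
  · intro Ω x σ hσ
    refine ⟨isCompact_Icc.image_of_continuousOn hσ.cont, ?_⟩
    obtain ⟨m, t, p, q, h0, hm, h⟩ := hσ.pl
    have key : ∀ j ≤ m, ∀ s, s ≤ t j → (∃ i < j, s ∈ Icc (t i) (t (i + 1))) ∨ s ≤ t 0 := by
      intro j
      induction j with
      | zero => exact fun _ s hs => Or.inr hs
      | succ j ih =>
        intro hj s hs
        rcases le_or_gt s (t j) with h1 | h1
        · rcases ih (by omega) s h1 with ⟨i, hi, h2⟩ | h2
          · exact Or.inl ⟨i, by omega, h2⟩
          · exact Or.inr h2
        · exact Or.inl ⟨j, by omega, h1.le, hs⟩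
    have hm0 : 0 < m := by
      rcases Nat.eq_zero_or_pos m with rfl | h1
      · rw [h0] at hm
        norm_num at hm
      · exact h1
    have hsub : σ '' Icc 0 1 ⊆ ⋃ i : ℕ, range fun s : ℝ => p i + s • q i := by
      rintro _ ⟨s, hs, rfl⟩
      obtain ⟨i, hi, hs'⟩ : ∃ i < m, s ∈ Icc (t i) (t (i + 1)) := by
        rcases key m le_rfl s (by rw [hm]; exact hs.2) with h1 | h1
        · exact h1
        · refine ⟨0, hm0, ?_, ?_⟩
          · rw [h0]; exact hs.1
          · exact h1.trans (h 0 hm0).1
      exact mem_iUnion.2 ⟨i, s, ((h i hi).2 s hs').symm⟩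
    exact measure_mono_null hsub (measure_iUnion_null fun i => line_null _ _)

end Pool.Agent.E8helper85.PM
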